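import Pool.Agent.Helper94.KC.GoalsC

/-!
# PACKET KC-DG (MP_bf413e_co): the complement of the core of a flat patch is 4-degenerate
-/

set_option autoImplicit false

namespace Pool.Agent.Helper12.KC

open scoped Classical
open Finset
open Pool.Agent.Helper94.KC

theorem hn_step (p : ℤ × ℤ) (h : 0 < hn p) : ∃ q, hn (q - p) = 1 ∧ hn q < hn p := by
  obtain ⟨a, b⟩ := p
  simp only [hn] at h ⊢
  have key : ∀ c d : ℤ, (max (max (c - a).natAbs (d - b).natAbs) ((c - a) + (d - b)).natAbs = 1 ∧
      max (max c.natAbs d.natAbs) (c + d).natAbs < max (max a.natAbs b.natAbs) (a + b).natAbs) →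
      ∃ q : ℤ × ℤ, max (max (q - (a, b)).1.natAbs (q - (a, b)).2.natAbs)
        ((q - (a, b)).1 + (q - (a, b)).2).natAbs = 1 ∧
      max (max q.1.natAbs q.2.natAbs) (q.1 + q.2).natAbs <
        max (max a.natAbs b.natAbs) (a + b).natAbs := fun c d h => ⟨(c, d), h⟩
  by_cases h1 : 0 < a ∧ 0 ≤ b
  · exact key (a - 1) b (by omega)
  by_cases h2 : 0 < b ∧ 0 ≤ a
  · exact key a (b - 1) (by omega)
  by_cases h3 : a < 0 ∧ b ≤ 0
  · exact key (a + 1) b (by omega)
  by_cases h4 : b < 0 ∧ a ≤ 0
  · exact key a (b + 1) (by omega)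
  by_cases h5 : a < 0 ∧ 0 < b
  · exact key (a + 1) (b - 1) (by omega)
  · exact key (a - 1) (b + 1) (by omega)

theorem mem_hB (n : ℕ) (p : ℤ × ℤ) : p ∈ hB n ↔ hn p ≤ n := by
  unfold hB
  rw [mem_filter, mem_product, mem_Icc, mem_Icc]
  simp only [hn]
  omega

theorem core_conn {V : Type} [Fintype V] (T : Finset (Finset V)) (i : ℤ × ℤ → V)
    (hi : Patch (sk T) i) : ConW T (core i) := by
  have key : ∀ n : ℕ, n ≤ 5 → ∀ p, hn p = n → (gr (edW T (core i))).Reachable (i p) (i (0, 0)) := by
    intro n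
    induction n using Nat.strong_induction_on with
    | _ n ih =>
      intro hn5 p hp
      by_cases h0 : hn p = 0
      · have : p = (0, 0) := by
          obtain ⟨a, b⟩ := p
          simp only [hn] at h0
          rw [Prod.mk.injEq]
          omega
        rw [this]
      · obtain ⟨q, hq1, hq2⟩ := hn_step p (by omega)
        have hr := ih (hn q) (by omega) (by omega) q rfl
        have hadj : (sk T).Adj (i p) (i q) := (hi.nb p (by omega) (i q)).2 ⟨q, hq1, rfl⟩
        have hadj2 : (gr (edW T (core i))).Adj (i p) (i q) := by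
          obtain ⟨hne, t, ht, h1, h2⟩ := hadj
          refine ⟨hne, ?_⟩
          unfold edW ed
          rw [mem_filter, mem_filter]
          refine ⟨⟨mem_univ _, card_pair hne, t, ht, ?_⟩, ?_⟩
          · intro z hz
            rw [mem_insert, mem_singleton] at hz
            rcases hz with rfl | rfl
            · exact h1
            · exact h2
          · intro z hz
            rw [mem_insert, mem_singleton] at hz
            unfold core
            rcases hz with rfl | rfl
            · exact mem_image_of_mem _ ((mem_hB _ _).2 (by omega))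
            · exact mem_image_of_mem _ ((mem_hB _ _).2 (by omega))
        exact hadj2.reachable.trans hr
  intro u hu v hv
  unfold core at hu hv
  obtain ⟨p, hp, rfl⟩ := mem_image.1 hu
  obtain ⟨q, hq, rfl⟩ := mem_image.1 hv
  exact (key (hn p) ((mem_hB _ _).1 hp) p rfl).trans (key (hn q) ((mem_hB _ _).1 hq) q rfl).symm

theorem dg (hXN : StmtXN) (hMM : StmtMM) (hNB : StmtNB) (hFD : StmtFD) (hBL : StmtBL)
    (hCO : StmtCO) : StmtDG := by
  intro V _ T N hS h6 hchi hEW x₀ w hw x hx hhub i hi hix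
  by_contra hD
  have h00 : i (0, 0) ∈ core i := by
    unfold core
    exact mem_image_of_mem _ ((mem_hB _ _).2 (by simp [hn]))
  have h10 : i (1, 0) ∈ core i := by
    unfold core
    exact mem_image_of_mem _ ((mem_hB _ _).2 (by simp [hn]))
  obtain ⟨W, hWs, hWne, hW1, hW2, hW5⟩ :=
    hCO V T hS h6 (core i) ⟨_, h00⟩ (core_conn T i hi) hD
  have hx0 : x ∉ W := by
    intro h
    have := (mem_sdiff.1 (hWs h)).2
    rw [← hix] at this
    exact this h00
  have hu0 : i (1, 0) ∉ W := fun h => (mem_sdiff.1 (hWs h)).2 h10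
  have hadj : (sk T).Adj x (i (1, 0)) := by
    rw [← hix]
    exact (hi.nb (0, 0) (by simp [hn]) _).2 ⟨(1, 0), by simp [hn], rfl⟩
  have hbl := hBL V T hS W x (i (1, 0)) (6 * N + 1) hW5 hx0 hu0 hadj hhub
  have hWu : W ≠ univ := by
    intro h
    exact hx0 (by rw [h]; exact mem_univ _)
  have h1 := (hXN V T hS h6 W hWne hWu hW5).2
  have h2 := (hMM V T hS h6).2 W
  have h3 : tk T W 1 ≤ 6 * N := by
    have : (tk T W 1 : ℤ) ≤ 6 * N := by linarith
    exact_mod_cast this
  obtain ⟨x₁, w₁, hc, hsupp, hb⟩ := hNB V T hS h6 W hWne hWu hW1 hW2 hW5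
  obtain ⟨v, hv, hdist⟩ := hFD V T hS (6 * N) (6 * N + 1) (by omega) hEW x₀ w hw x hx W h3 x₁ w₁
    hc hsupp hb
  exact hbl v (by omega) hv

end Pool.Agent.Helper12.KC
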