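import Pool.Agent.Helper53.KC.Goals2

/-! # INVF: invariance of the non-bases, circuits and hyperplanes -/

namespace Pool.Agent.Helper12.KC

open Finset Pool.Agent.Helper53.KC

variable {n : ℕ}

theorem coe_act (σ : Equiv.Perm (Fin n)) (X : Finset (Fin n)) :
    ((act σ X : Finset (Fin n)) : Set (Fin n)) = σ '' (X : Set (Fin n)) := by
  simp [act]

theorem set_indep_iff {σ : Equiv.Perm (Fin n)} {M : Matroid (Fin n)} (hI : Inv σ M)
    (X : Set (Fin n)) : M.Indep (σ '' X) ↔ M.Indep X := by
  classical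
  have h := hI X.toFinset
  rw [coe_act] at h
  simpa using h

theorem inv_map {σ : Equiv.Perm (Fin n)} {M : Matroid (Fin n)} (hE : M.E = Set.univ)
    (hI : Inv σ M) : M.mapEquiv σ = M := by
  refine Matroid.ext_indep ?_ ?_
  · simp [hE]
  · intro I _
    rw [Matroid.mapEquiv_indep_iff, ← set_indep_iff hI (σ.symm '' I)]
    simp [Set.image_image]

theorem inv_dual {σ : Equiv.Perm (Fin n)} {M : Matroid (Fin n)} (hE : M.E = Set.univ)
    (hI : Inv σ M) (X : Set (Fin n)) : M✶.Indep (σ '' X) ↔ M✶.Indep X := by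
  have h1 : M✶.mapEquiv σ = M✶ := by
    have h2 := inv_map hE hI
    have h3 : (M.mapEquiv σ)✶ = M✶.mapEquiv σ := by
      rw [Matroid.mapEquiv_eq_map, Matroid.mapEquiv_eq_map, Matroid.map_dual]
    rw [← h3, h2]
  have h4 : (M✶.mapEquiv σ).Indep (σ '' X) ↔ M✶.Indep X := by
    rw [Matroid.mapEquiv_indep_iff]
    simp [Set.image_image]
  rw [h1] at h4
  exact h4

theorem circ_iff {σ : Equiv.Perm (Fin n)} {N : Matroid (Fin n)} (hE : N.E = Set.univ)
    (hI : ∀ X : Set (Fin n), N.Indep (σ '' X) ↔ N.Indep X) (X : Set (Fin n)) :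
    N.IsCircuit (σ '' X) ↔ N.IsCircuit X := by
  rw [Matroid.isCircuit_iff_minimal_not_indep (by rw [hE]; exact Set.subset_univ _),
    Matroid.isCircuit_iff_minimal_not_indep (by rw [hE]; exact Set.subset_univ _)]
  constructor
  · intro h
    refine ⟨fun h' => h.prop ((hI X).2 h'), fun Y hY hYX => ?_⟩
    have h1 : ¬ N.Indep (σ '' Y) := fun h' => hY ((hI Y).1 h')
    have h2 := h.le_of_le h1 (Set.image_mono hYX)
    exact (Set.image_subset_image_iff σ.injective).1 h2
  · intro h
    refine ⟨fun h' => h.prop ((hI X).1 h'), fun Y hY hYX => ?_⟩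
    have h0 : σ '' (σ.symm '' Y) = Y := by simp [Set.image_image]
    have h1 : ¬ N.Indep (σ.symm '' Y) := by
      intro h'
      apply hY
      have := (hI (σ.symm '' Y)).2 h'
      rwa [h0] at this
    have h3 : σ.symm '' Y ⊆ X := by
      have h4 : σ '' (σ.symm '' Y) ⊆ σ '' X := by rw [h0]; exact hYX
      exact (Set.image_subset_image_iff σ.injective).1 h4
    have h2 := h.le_of_le h1 h3
    have h5 := Set.image_mono (f := σ) h2
    rw [h0] at h5
    exact h5

theorem card_act (σ : Equiv.Perm (Fin n)) (X : Finset (Fin n)) : (act σ X).card = X.card := by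
  simp [act]

theorem compl_act (σ : Equiv.Perm (Fin n)) (X : Finset (Fin n)) :
    (((act σ X)ᶜ : Finset (Fin n)) : Set (Fin n)) = σ '' ((Xᶜ : Finset (Fin n)) : Set (Fin n)) := by
  rw [Finset.coe_compl, Finset.coe_compl, coe_act, Set.image_compl_eq σ.bijective]

/-- INVF. -/
theorem invf : InvfStmt := by
  classical
  intro n r t σ M hE hI X
  refine ⟨?_, ?_, ?_⟩
  · unfold NB V
    simp only [mem_filter, mem_powersetCard, card_act, coe_act,
      set_indep_iff hI, subset_univ]
  · unfold thC
    simp only [mem_filter, mem_univ, card_act, coe_act, circ_iff hE (set_indep_iff hI)]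
  · unfold thH
    have hE' : M✶.E = Set.univ := by simpa using hE
    simp only [mem_filter, mem_univ, card_act, compl_act, Matroid.isCocircuit_def,
      circ_iff hE' (inv_dual hE hI)]

end Pool.Agent.Helper12.KC
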